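import Pool.Agent.H93.EH.Key

/-!
# Module SEQ: weighted halving sequence from a frame
-/

set_option autoImplicit false

namespace Pool.Agent.H93.EH

open Finset Pool.Agent.H68 Pool.Agent.H93.EL Pool.Agent.H56.EH
open scoped Classical

variable {V : Finset (Pt 2)} {ε : ℝ} {K : ℕ} {c : ℕ → ℝ}

/-- the data of an exchange -/
theorem exch (hK : 0 < K)
    (h1 : ∀ p < (crit V ε).card, c p ∈ crit V ε ∧ ((crit V ε).filter (· < c p)).card = p)
    {a b : {x // x ∈ V} × Fin K} {t : ℕ} (h0 : lt0 V ε K a b) (ht : tim V ε K a b = t) :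
    (a.1 = b.1 ∧ t / (2 * K) = (crit V ε).card ∧ t % (2 * K) = a.2 + b.2) ∨
    (gx ε a.1 < gx ε b.1 ∧ t / (2 * K) < (crit V ε).card ∧
      gh ε (c (t / (2 * K))) a.1 = gh ε (c (t / (2 * K))) b.1 ∧
      t % (2 * K) = K - 1 - a.2 + b.2) := by
  have hD : 0 < 2 * K := by omega
  obtain ⟨⟨x, hx⟩, i⟩ := a
  obtain ⟨⟨y, hy⟩, j⟩ := b
  have hi := i.2
  have hj := j.2
  unfold lt0 at h0
  unfold tim at ht
  simp only [Subtype.mk.injEq] at h0 ht ⊢
  have hdm : ∀ q s : ℕ, s < 2 * K → (q * (2 * K) + s) / (2 * K) = q ∧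
      (q * (2 * K) + s) % (2 * K) = s := by
    intro q s hs
    have e1 : q * (2 * K) + s = s + (2 * K) * q := by ring
    rw [e1, Nat.add_mul_div_left _ _ hD, Nat.add_mul_mod_self_left, Nat.div_eq_of_lt hs,
      Nat.mod_eq_of_lt hs, zero_add]
    exact ⟨rfl, rfl⟩
  rcases h0 with h0 | ⟨h0, hij⟩
  · right
    have hne : x ≠ y := by
      rintro rfl
      exact absurd h0 (lt_irrefl _)
    rw [if_neg hne] at ht
    have hσ := mem_crit hx hy h0
    obtain ⟨e1, e2⟩ := hdm (idx (crit V ε) (sl ε x y)) (K - 1 - (i : ℕ) + j) (by omega)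
    rw [ht] at e1 e2
    rw [e1, e2]
    refine ⟨h0, idx_lt hσ, ?_, rfl⟩
    exact gh_eq h0 (slope_eq h1 hσ rfl)
  · left
    rw [if_pos h0] at ht
    have hij' : (i : ℕ) < j := hij
    obtain ⟨e1, e2⟩ := hdm (crit V ε).card ((i : ℕ) + j) (by omega)
    rw [ht] at e1 e2
    exact ⟨h0, e1, e2⟩

theorem tim_lt {a b : {x // x ∈ V} × Fin K} (h0 : lt0 V ε K a b) :
    tim V ε K a b < (crit V ε).card * (2 * K) + (2 * K - 1) := by
  obtain ⟨⟨x, hx⟩, i⟩ := a
  obtain ⟨⟨y, hy⟩, j⟩ := b
  have hi := i.2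
  have hj := j.2
  unfold lt0 at h0
  unfold tim
  simp only [Subtype.mk.injEq] at h0 ⊢
  rcases h0 with h0 | ⟨h0, hij⟩
  · have hne : x ≠ y := by
      rintro rfl
      exact absurd h0 (lt_irrefl _)
    rw [if_neg hne]
    have h3 := idx_lt (mem_crit hx hy h0)
    have h4 : (idx (crit V ε) (sl ε x y) + 1) * (2 * K) ≤ (crit V ε).card * (2 * K) :=
      Nat.mul_le_mul_right _ h3
    rw [Nat.add_mul, one_mul] at h4
    omega
  · rw [if_pos h0]
    have hij' : (i : ℕ) < j := hij
    omega

/-- Module SEQ -/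
theorem seq {V : Finset (Pt 2)} {ε : ℝ} (hF : Frame V ε) {K : ℕ} (hK : Even K) :
    ∃ (T : ℕ) (S : ℕ → Finset (V × Fin K)), HSeq T S ∧ ∀ t ≤ T, ∃ s, ∀ A : Finset (Pt 2), A ⊆ V →
      (∀ x : V, (∀ j, (x, j) ∈ S t) → (x : Pt 2) ∈ A) →
      (∀ x : V, (∀ j, (x, j) ∉ S t) → (x : Pt 2) ∉ A) → Low V ε s A := by
  have hlow : ∀ (s h : ℝ) (S : Finset (V × Fin K)), (∀ x : V, (gh ε s x < h → ∀ i, (x, i) ∈ S) ∧
      (h < gh ε s x → ∀ i, (x, i) ∉ S)) → ∀ A : Finset (Pt 2), A ⊆ V →
      (∀ x : V, (∀ j, (x, j) ∈ S) → (x : Pt 2) ∈ A) →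
      (∀ x : V, (∀ j, (x, j) ∉ S) → (x : Pt 2) ∉ A) → Low V ε s A := by
    intro s h S hS A hA h1 h2
    refine ⟨hA, fun p hp q hq hqA => ?_⟩
    by_contra hc
    rcases lt_or_ge (gh ε s q) h with h3 | h3
    · exact hqA (h1 ⟨q, hq⟩ ((hS ⟨q, hq⟩).1 h3))
    · exact h2 ⟨p, hA hp⟩ ((hS ⟨p, hA hp⟩).2 (lt_of_le_of_lt h3 (not_le.1 hc))) hp
  rcases isEmpty_or_nonempty (V × Fin K) with he | hne
  · refine ⟨0, fun _ => ∅, ⟨fun t _ => ?_, fun t ht => absurd ht (Nat.not_lt_zero t), ?_, fun u => ?_⟩,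
      fun t _ => ?_⟩
    · rw [Fintype.card_eq_zero]
      simp
    · ext u
      exact (IsEmpty.false u).elim
    · exact (IsEmpty.false u).elim
    · rcases V.eq_empty_or_nonempty with hV | ⟨v, hv⟩
      · refine ⟨0, fun A hA _ _ => ⟨hA, fun p hp => ?_⟩⟩
        rw [hV] at hA
        exact absurd (hA hp) (notMem_empty p)
      · have hj : ∀ j : Fin K, False := fun j => (IsEmpty.false ((⟨v, hv⟩ : V), j)).elim
        refine ⟨0, fun A hA h1 h2 => ?_⟩
        exact absurd (h1 ⟨v, hv⟩ fun j => (hj j).elim) (h2 ⟨v, hv⟩ fun j => (hj j).elim)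
  · have hK0 : 0 < K := by
      obtain ⟨a⟩ := hne
      have := a.2.2
      omega
    have hD : 0 < 2 * K := by omega
    obtain ⟨c, h1, h2⟩ := exists_slopes (crit V ε)
    have hdiv : ∀ t ≤ (crit V ε).card * (2 * K) + (2 * K - 1), t / (2 * K) ≤ (crit V ε).card := by
      intro t ht
      rw [← Nat.lt_succ_iff, Nat.div_lt_iff_lt_mul hD, Nat.succ_mul]
      omega
    refine ⟨(crit V ε).card * (2 * K) + (2 * K - 1), fun t => lowHalf (key V ε K c t), ?_, ?_⟩
    · refine hseq_of_keys _ _ (lt0 V ε K) (tim V ε K) ?_ ?_ ?_ ?_ ?_ ?_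
      · intro a b hab
        unfold lt0
        by_cases hx : a.1 = b.1
        · have hi : a.2 ≠ b.2 := fun h => hab (Prod.ext hx h)
          rcases lt_or_gt_of_ne hi with h | h
          · exact Or.inl (Or.inr ⟨hx, h⟩)
          · exact Or.inr (Or.inr ⟨hx.symm, h⟩)
        · have hg : gx ε a.1 ≠ gx ε b.1 := fun h => hx (Subtype.ext (hF.inj _ a.1.2 _ b.1.2 h))
          rcases lt_or_gt_of_ne hg with h | h
          · exact Or.inl (Or.inl h)
          · exact Or.inr (Or.inl h)
      · intro a b h0 t ht h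
        exact (key_main hF hK0 h1 h2 h0 (hdiv t ht)).1 h
      · intro a b h0 t ht h
        exact (key_main hF hK0 h1 h2 h0 (hdiv t ht)).2 h
      · intro a b h0
        exact tim_lt h0
      · -- at most one exchange at a time
        have key2 : ∀ a b : {x // x ∈ V} × Fin K, ∀ t,
            (lt0 V ε K a b ∧ tim V ε K a b = t ∨ lt0 V ε K b a ∧ tim V ε K b a = t) →
            (a.1 = b.1 ∧ t / (2 * K) = (crit V ε).card ∧ t % (2 * K) = a.2 + b.2) ∨
            (t / (2 * K) < (crit V ε).card ∧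
              gh ε (c (t / (2 * K))) b.1 = gh ε (c (t / (2 * K))) a.1 ∧
              ((gx ε a.1 < gx ε b.1 ∧ t % (2 * K) = K - 1 - a.2 + b.2) ∨
                (gx ε b.1 < gx ε a.1 ∧ t % (2 * K) = K - 1 - b.2 + a.2))) := by
          intro a b t h
          rcases h with h | h
          · rcases exch hK0 h1 h.1 h.2 with h' | h'
            · exact Or.inl h'
            · exact Or.inr ⟨h'.2.1, h'.2.2.1.symm, Or.inl ⟨h'.1, h'.2.2.2⟩⟩
          · rcases exch hK0 h1 h.1 h.2 with h' | h'
            · exact Or.inl ⟨h'.1.symm, h'.2.1, by rw [h'.2.2, add_comm]⟩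
            · exact Or.inr ⟨h'.2.1, h'.2.2.1, Or.inr ⟨h'.1, h'.2.2.2⟩⟩
        intro a b b' t hb hb'
        have ha2 := a.2.2
        have hb2 := b.2.2
        have hb2' := b'.2.2
        rcases key2 a b t hb with h | h
        · rcases key2 a b' t hb' with h' | h'
          · refine Prod.ext (h.1.symm.trans h'.1) (Fin.ext ?_)
            have e1 := h.2.2
            have e2 := h'.2.2
            omega
          · have e1 := h.2.1
            have e2 := h'.1
            omega
        · rcases key2 a b' t hb' with h' | h'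
          · have e1 := h'.2.1
            have e2 := h.1
            omega
          · have hba : (b.1 : Pt 2) ≠ a.1 := by
              intro he
              rcases h.2.2 with e | e
              · rw [he] at e
                exact absurd e.1 (lt_irrefl _)
              · rw [he] at e
                exact absurd e.1 (lt_irrefl _)
            have hba' : (b'.1 : Pt 2) ≠ a.1 := by
              intro he
              rcases h'.2.2 with e | e
              · rw [he] at e
                exact absurd e.1 (lt_irrefl _)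
              · rw [he] at e
                exact absurd e.1 (lt_irrefl _)
            have hbb : (b.1 : Pt 2) = b'.1 :=
              tie hF a.1.2 b.1.2 b'.1.2 hba hba' h.2.1 h'.2.1
            refine Prod.ext (Subtype.ext hbb) (Fin.ext ?_)
            rcases h.2.2 with e | e
            · rcases h'.2.2 with e' | e'
              · have e1 := e.2
                have e2 := e'.2
                omega
              · have e1 := e.1
                rw [hbb] at e1
                exact absurd e1 e'.1.asymm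
            · rcases h'.2.2 with e' | e'
              · have e1 := e.1
                rw [hbb] at e1
                exact absurd e1 e'.1.asymm
              · have e1 := e.2
                have e2 := e'.2
                omega
      · rw [Fintype.card_prod, Fintype.card_fin]
        exact hK.mul_left _
    · intro t _
      obtain ⟨a, ha⟩ := lowHalf_cut (κ := key V ε K c t) Fintype.card_pos
      refine ⟨c (t / (2 * K)), hlow _ (gh ε (c (t / (2 * K))) a.1) _ fun x => ⟨fun h i => ?_, fun h i => ?_⟩⟩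
      · exact (ha (x, i)).1 (key_lt_iff.2 (Or.inl h))
      · exact (ha (x, i)).2 (key_lt_iff.2 (Or.inl h))

end Pool.Agent.H93.EH
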