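import Pool.Agent.H93.EL.Def

/-!
# H93.EH.Crit: critical slopes
-/

set_option autoImplicit false

namespace Pool.Agent.H93.EH

open Finset Pool.Agent.H68 Pool.Agent.H93.EL

/-- the slope of the line through `x` and `y` -/
noncomputable def sl (ε : ℝ) (x y : Pt 2) : ℝ := (x 1 - y 1) / (gx ε x - gx ε y)

theorem sl_comm (ε : ℝ) (x y : Pt 2) : sl ε x y = sl ε y x := by
  unfold sl
  rw [← neg_sub (y 1), ← neg_sub (gx ε y), neg_div_neg_eq]

theorem gh_lt_iff {ε : ℝ} {x y : Pt 2} (h : gx ε x < gx ε y) (s : ℝ) :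
    gh ε s x < gh ε s y ↔ s < sl ε x y := by
  have h1 : gx ε x - gx ε y < 0 := sub_neg.2 h
  unfold sl
  rw [lt_div_iff_of_neg h1]
  unfold gh
  constructor
  · intro h2
    linarith
  · intro h2
    linarith

theorem gh_gt_iff {ε : ℝ} {x y : Pt 2} (h : gx ε x < gx ε y) (s : ℝ) :
    gh ε s y < gh ε s x ↔ sl ε x y < s := by
  have h1 : gx ε x - gx ε y < 0 := sub_neg.2 h
  unfold sl
  rw [div_lt_iff_of_neg h1]
  unfold gh
  constructor
  · intro h2
    linarith
  · intro h2
    linarith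

theorem gh_eq {ε : ℝ} {x y : Pt 2} (h : gx ε x < gx ε y) {s : ℝ} (hs : s = sl ε x y) :
    gh ε s x = gh ε s y := by
  apply le_antisymm
  · rw [← not_lt, gh_gt_iff h]
    exact not_lt.2 hs.le
  · rw [← not_lt, gh_lt_iff h]
    exact not_lt.2 hs.ge

theorem exists_crit (C : Finset ℝ) : ∀ p < C.card, ∃ c ∈ C, (C.filter (· < c)).card = p := by
  induction C using Finset.induction_on_max with
  | empty =>
    intro p hp
    simp at hp
  | insert a C ha ih =>
    intro p hp
    have haC : a ∉ C := fun h => absurd (ha a h) (lt_irrefl _)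
    rw [card_insert_of_notMem haC] at hp
    rcases Nat.lt_succ_iff_lt_or_eq.1 hp with h | h
    · obtain ⟨c, hc, hcp⟩ := ih p h
      refine ⟨c, mem_insert_of_mem hc, ?_⟩
      rw [filter_insert, if_neg (not_lt.2 (ha c hc).le), hcp]
    · refine ⟨a, mem_insert_self _ _, ?_⟩
      rw [filter_insert, if_neg (lt_irrefl _), filter_true_of_mem ha, h]

/-- slopes for the phases: the critical slopes in increasing order, and one more slope -/
theorem exists_slopes (C : Finset ℝ) : ∃ c : ℕ → ℝ,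
    (∀ p < C.card, c p ∈ C ∧ (C.filter (· < c p)).card = p) ∧ ∀ σ ∈ C, σ < c C.card := by
  obtain ⟨b, hb⟩ : ∃ b : ℝ, ∀ σ ∈ C, σ < b := by
    obtain ⟨b, hb⟩ := C.bddAbove
    exact ⟨b + 1, fun σ hσ => lt_of_le_of_lt (hb hσ) (lt_add_one b)⟩
  choose! c hc using exists_crit C
  refine ⟨fun p => if p < C.card then c p else b, ?_, ?_⟩
  · intro p hp
    simp only [if_pos hp]
    exact hc p hp
  · intro σ hσ
    simp only [lt_irrefl, if_false]
    exact hb σ hσ

/-- the position of a critical slope -/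
noncomputable def idx (C : Finset ℝ) (σ : ℝ) : ℕ := (C.filter (· < σ)).card

theorem idx_lt {C : Finset ℝ} {σ : ℝ} (hσ : σ ∈ C) : idx C σ < C.card := by
  apply card_lt_card
  rw [ssubset_iff_of_subset (filter_subset _ _)]
  exact ⟨σ, hσ, by simp⟩

theorem idx_mono {C : Finset ℝ} {σ τ : ℝ} (hσ : σ ∈ C) (h : σ < τ) : idx C σ < idx C τ := by
  apply card_lt_card
  rw [ssubset_iff_of_subset]
  · exact ⟨σ, mem_filter.2 ⟨hσ, h⟩, by simp⟩
  · intro x hx
    rw [mem_filter] at hx ⊢
    exact ⟨hx.1, hx.2.trans h⟩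

variable {C : Finset ℝ} {c : ℕ → ℝ}

theorem slope_lt (h1 : ∀ p < C.card, c p ∈ C ∧ (C.filter (· < c p)).card = p)
    {p : ℕ} {σ : ℝ} (hσ : σ ∈ C) (h : p < idx C σ) : c p < σ := by
  have hp' : p < C.card := h.trans (idx_lt hσ)
  by_contra hc
  rcases (not_lt.1 hc).lt_or_eq with h3 | h3
  · have := idx_mono hσ h3
    unfold idx at this h
    rw [(h1 p hp').2] at this
    omega
  · have := (h1 p hp').2
    rw [← h3] at this
    unfold idx at h
    omega

theorem slope_gt (h1 : ∀ p < C.card, c p ∈ C ∧ (C.filter (· < c p)).card = p)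
    (h2 : ∀ σ ∈ C, σ < c C.card) {p : ℕ} (hp : p ≤ C.card) {σ : ℝ} (hσ : σ ∈ C)
    (h : idx C σ < p) : σ < c p := by
  rcases hp.lt_or_eq with hp' | hp'
  · by_contra hc
    rcases (not_lt.1 hc).lt_or_eq with h3 | h3
    · have := idx_mono (h1 p hp').1 h3
      have h4 := (h1 p hp').2
      unfold idx at this h
      omega
    · have := (h1 p hp').2
      rw [h3] at this
      unfold idx at h
      omega
  · rw [hp']
    exact h2 σ hσ

theorem slope_eq (h1 : ∀ p < C.card, c p ∈ C ∧ (C.filter (· < c p)).card = p)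
    {p : ℕ} {σ : ℝ} (hσ : σ ∈ C) (h : p = idx C σ) : c p = σ := by
  have hp' : p < C.card := by
    rw [h]
    exact idx_lt hσ
  have h4 := (h1 p hp').2
  rcases lt_trichotomy (c p) σ with h3 | h3 | h3
  · have := idx_mono (h1 p hp').1 h3
    unfold idx at this h
    omega
  · exact h3
  · have := idx_mono hσ h3
    unfold idx at this h
    omega

end Pool.Agent.H93.EH
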