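import Pool.Agent.H93.EH.Ord
import Pool.Agent.H93.EH.Crit

/-!
# H93.EH.Key: keys for the clusters `{x} × Fin K`

At time `t = 2 K p + τ`, `τ < 2 K`, the clusters are ordered by their heights over a line of slope `c p`.
If two clusters have the same height their points are exchanged one after the other while `τ` runs.
In the last phase the order inside of the clusters is reversed.
-/

set_option autoImplicit false

namespace Pool.Agent.H93.EH

open Finset Pool.Agent.H68 Pool.Agent.H93.EL Pool.Agent.H56.EH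
open scoped Classical

/-- the critical slopes -/
noncomputable def crit (V : Finset (Pt 2)) (ε : ℝ) : Finset ℝ :=
  V.offDiag.image fun z => sl ε z.1 z.2

/-- `x` is the left one of two points with the same height -/
def Lf (V : Finset (Pt 2)) (ε s : ℝ) (x : Pt 2) : Prop :=
  ∃ y ∈ V, gh ε s y = gh ε s x ∧ gx ε x < gx ε y

/-- the second component of the key -/
noncomputable def small (V : Finset (Pt 2)) (ε : ℝ) (K : ℕ) (c : ℕ → ℝ) (p τ : ℕ) (x : Pt 2)
    (i : ℕ) : ℤ :=
  if p < (crit V ε).card then 2 * i + (if Lf V ε (c p) x then 2 * (τ : ℤ) - 2 * K + 1 else 0)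
  else 2 * (i : ℤ) ^ 2 - (2 * τ - 1) * i

/-- the key -/
noncomputable def key (V : Finset (Pt 2)) (ε : ℝ) (K : ℕ) (c : ℕ → ℝ) (t : ℕ)
    (a : {x // x ∈ V} × Fin K) : ℝ ×ₗ ℤ :=
  toLex (gh ε (c (t / (2 * K))) a.1, small V ε K c (t / (2 * K)) (t % (2 * K)) a.1 a.2)

/-- the initial order -/
def lt0 (V : Finset (Pt 2)) (ε : ℝ) (K : ℕ) (a b : {x // x ∈ V} × Fin K) : Prop :=
  gx ε a.1 < gx ε b.1 ∨ (a.1 = b.1 ∧ a.2 < b.2)

/-- the time of the exchange -/
noncomputable def tim (V : Finset (Pt 2)) (ε : ℝ) (K : ℕ) (a b : {x // x ∈ V} × Fin K) : ℕ :=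
  if a.1 = b.1 then (crit V ε).card * (2 * K) + (a.2 + b.2)
  else idx (crit V ε) (sl ε a.1 b.1) * (2 * K) + (K - 1 - a.2 + b.2)

theorem Key_ar1 {D p q τ s : ℕ} (hτ : τ < D) (h : p < q) : D * p + τ < q * D + s := by
  have : D * (p + 1) ≤ q * D := by
    rw [mul_comm q D]
    exact Nat.mul_le_mul_left D h
  have h2 : D * (p + 1) = D * p + D := by ring
  omega

theorem Key_ar2 {D p q τ s : ℕ} (hs : s < D) (h : q < p) : q * D + s < D * p + τ := by
  have : D * (q + 1) ≤ D * p := Nat.mul_le_mul_left D h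
  have h2 : D * (q + 1) = q * D + D := by ring
  omega

variable {V : Finset (Pt 2)} {ε : ℝ} {K : ℕ} {c : ℕ → ℝ}

theorem mem_crit {x y : Pt 2} (hx : x ∈ V) (hy : y ∈ V) (h : gx ε x < gx ε y) :
    sl ε x y ∈ crit V ε := by
  unfold crit
  rw [mem_image]
  have hne : x ≠ y := by
    rintro rfl
    exact absurd h (lt_irrefl _)
  exact ⟨(x, y), mem_offDiag.2 ⟨hx, hy, hne⟩, rfl⟩

/-- only two points have the same height -/
theorem tie {s : ℝ} (hF : Frame V ε) {x y z : Pt 2} (hx : x ∈ V) (hy : y ∈ V) (hz : z ∈ V)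
    (hxy : y ≠ x) (hxz : z ≠ x) (h1 : gh ε s y = gh ε s x) (h2 : gh ε s z = gh ε s x) : y = z := by
  by_contra hyz
  have hsub : ({x, y, z} : Finset (Pt 2)) ⊆ V.filter fun p => gh ε s p = gh ε s x := by
    intro w hw
    rw [mem_insert, mem_insert, mem_singleton] at hw
    rw [mem_filter]
    rcases hw with rfl | rfl | rfl
    · exact ⟨hx, rfl⟩
    · exact ⟨hy, h1⟩
    · exact ⟨hz, h2⟩
  have h3 : ({x, y, z} : Finset (Pt 2)).card = 3 := by
    rw [card_eq_three]
    exact ⟨x, y, z, hxy.symm, hxz.symm, hyz, rfl⟩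
  have h4 := card_le_card hsub
  have h5 : (V.filter fun p => gh ε s p = gh ε s x).card ≤ 2 := by
    convert hF.two s (gh ε s x) using 2
  omega

theorem key_lt_iff {t : ℕ} {a b : {x // x ∈ V} × Fin K} : key V ε K c t a < key V ε K c t b ↔
    gh ε (c (t / (2 * K))) a.1 < gh ε (c (t / (2 * K))) b.1 ∨
      gh ε (c (t / (2 * K))) a.1 = gh ε (c (t / (2 * K))) b.1 ∧
        small V ε K c (t / (2 * K)) (t % (2 * K)) a.1 a.2 <
          small V ε K c (t / (2 * K)) (t % (2 * K)) b.1 b.2 := by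
  unfold key
  rw [Prod.Lex.toLex_lt_toLex]

theorem key_main (hF : Frame V ε) (hK : 0 < K)
    (h1 : ∀ p < (crit V ε).card, c p ∈ crit V ε ∧ ((crit V ε).filter (· < c p)).card = p)
    (h2 : ∀ σ ∈ crit V ε, σ < c (crit V ε).card) {a b : {x // x ∈ V} × Fin K}
    (h0 : lt0 V ε K a b) {t : ℕ} (ht : t / (2 * K) ≤ (crit V ε).card) :
    (t ≤ tim V ε K a b → key V ε K c t a < key V ε K c t b) ∧
      (tim V ε K a b < t → key V ε K c t b < key V ε K c t a) := by
  have hD : 0 < 2 * K := by omega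
  have ht1 := Nat.div_add_mod t (2 * K)
  have ht2 := Nat.mod_lt t hD
  obtain ⟨p, hp⟩ : ∃ p, p = t / (2 * K) := ⟨_, rfl⟩
  obtain ⟨τ, hτ⟩ : ∃ τ, τ = t % (2 * K) := ⟨_, rfl⟩
  obtain ⟨M, hM⟩ : ∃ M, M = (crit V ε).card := ⟨_, rfl⟩
  rw [key_lt_iff, key_lt_iff, ← hp, ← hτ]
  rw [← hp, ← hτ] at ht1
  rw [← hτ] at ht2
  rw [← hp, ← hM] at ht
  obtain ⟨⟨x, hx⟩, i⟩ := a
  obtain ⟨⟨y, hy⟩, j⟩ := b
  have hi := i.2
  have hj := j.2
  unfold lt0 at h0
  unfold tim
  simp only [Subtype.mk.injEq] at h0 ⊢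
  rcases h0 with h0 | ⟨h0, hij⟩
  · -- different clusters
    have hne : x ≠ y := by
      rintro rfl
      exact absurd h0 (lt_irrefl _)
    rw [if_neg hne]
    have hσ := mem_crit hx hy h0
    obtain ⟨q, hq⟩ : ∃ q, q = idx (crit V ε) (sl ε x y) := ⟨_, rfl⟩
    rw [← hq]
    rcases lt_trichotomy p q with h | h | h
    · have h3 : c p < sl ε x y := slope_lt h1 hσ (by rw [← hq]; exact h)
      have h4 := (gh_lt_iff h0 (c p)).2 h3
      have h5 := Key_ar1 (s := K - 1 - (i : ℕ) + j) ht2 h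
      refine ⟨fun _ => Or.inl h4, fun h6 => ?_⟩
      omega
    · have h3 : c p = sl ε x y := slope_eq h1 hσ (by rw [← hq]; exact h)
      have h4 := gh_eq h0 h3
      have hpM : p < (crit V ε).card := by
        rw [h, hq]
        exact idx_lt hσ
      have hLx : Lf V ε (c p) x := ⟨y, hy, h4.symm, h0⟩
      have hLy : ¬ Lf V ε (c p) y := by
        rintro ⟨z, hz, hz1, hz2⟩
        have hzy : z ≠ y := by
          rintro rfl
          exact absurd hz2 (lt_irrefl _)
        have h5 := tie hF hy hx hz hne hzy h4 hz1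
        rw [← h5] at hz2
        exact absurd hz2 h0.asymm
      have hsx : small V ε K c p τ x i = 2 * (i : ℤ) + (2 * (τ : ℤ) - 2 * K + 1) := by
        unfold small
        rw [if_pos hpM, if_pos hLx]
      have hsy : small V ε K c p τ y j = 2 * (j : ℤ) := by
        unfold small
        rw [if_pos hpM, if_neg hLy, add_zero]
      rw [hsx, hsy]
      have ht3 : t = q * (2 * K) + τ := by
        rw [← ht1, h]
        ring
      constructor
      · intro h6
        right
        refine ⟨h4, ?_⟩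
        have h7 : τ ≤ K - 1 - (i : ℕ) + j := by omega
        omega
      · intro h6
        right
        refine ⟨h4.symm, ?_⟩
        have h7 : K - 1 - (i : ℕ) + j < τ := by omega
        omega
    · have h3 : sl ε x y < c p := slope_gt h1 h2 (by rw [← hM]; exact ht) hσ (by rw [← hq]; exact h)
      have h4 := (gh_gt_iff h0 (c p)).2 h3
      have h5 := Key_ar2 (s := K - 1 - (i : ℕ) + j) (D := 2 * K) (τ := τ) (by omega) h
      refine ⟨fun h6 => ?_, fun _ => Or.inl h4⟩
      omega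
  · -- the same cluster
    subst h0
    rw [if_pos rfl, ← hM]
    have hij' : (i : ℕ) < j := hij
    rcases ht.lt_or_eq with h | h
    · have h5 := Key_ar1 (s := (i : ℕ) + j) ht2 h
      refine ⟨fun _ => Or.inr ⟨rfl, ?_⟩, fun h6 => ?_⟩
      · have hs : ∀ k : ℕ, small V ε K c p τ x k =
            2 * (k : ℤ) + (if Lf V ε (c p) x then 2 * (τ : ℤ) - 2 * K + 1 else 0) := by
          intro k
          unfold small
          rw [if_pos (by rw [← hM]; exact h)]
        rw [hs, hs]
        omega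
      · omega
    · have hs : ∀ k : ℕ, small V ε K c p τ x k = 2 * (k : ℤ) ^ 2 - (2 * τ - 1) * k := by
        intro k
        unfold small
        rw [if_neg (by rw [← hM, h]; exact lt_irrefl _)]
      rw [hs, hs]
      have ht3 : t = M * (2 * K) + τ := by
        rw [← ht1, h]
        ring
      have hpos : (0 : ℤ) < (j : ℕ) - (i : ℕ) := by
        have : ((i : ℕ) : ℤ) < (j : ℕ) := by exact_mod_cast hij'
        linarith
      constructor
      · intro h6
        right
        refine ⟨rfl, ?_⟩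
        have h7 : (τ : ℤ) ≤ (i : ℕ) + (j : ℕ) := by omega
        have h8 : (0 : ℤ) < 2 * (((i : ℕ) : ℤ) + (j : ℕ)) - 2 * τ + 1 := by linarith
        nlinarith [mul_pos hpos h8]
      · intro h6
        right
        refine ⟨rfl, ?_⟩
        have h7 : ((i : ℕ) : ℤ) + (j : ℕ) + 1 ≤ τ := by omega
        have h8 : (0 : ℤ) < 2 * τ - 1 - 2 * (((i : ℕ) : ℤ) + (j : ℕ)) := by linarith
        nlinarith [mul_pos hpos h8]

end Pool.Agent.H93.EH
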