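import Pool.Agent.H56.EH.Def2
import Pool.Agent.H93.EL.Def

/-!
# H93.EH.Ord: halving sequences from sequences of linear orders
-/

set_option autoImplicit false

namespace Pool.Agent.H93.EH

open Finset Pool.Agent.H56.EH

variable {α β : Type} [Fintype α] [DecidableEq α] [LinearOrder β]

/-- the number of points with a smaller key -/
def rk (κ : α → β) (a : α) : ℕ := (univ.filter fun b => κ b < κ a).card

/-- the lower half -/
def lowHalf (κ : α → β) : Finset α := univ.filter fun a => 2 * rk κ a < Fintype.card α

theorem rk_lt {κ : α → β} {a b : α} (h : κ a < κ b) : rk κ a < rk κ b := by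
  unfold rk
  apply card_lt_card
  rw [ssubset_iff_of_subset]
  · exact ⟨a, by simpa using h, by simp⟩
  · intro c hc
    simp only [mem_filter, mem_univ, true_and] at hc ⊢
    exact hc.trans h

theorem rk_inj {κ : α → β} (hκ : Function.Injective κ) : Function.Injective (rk κ) := by
  intro a b hab
  by_contra hne
  rcases lt_or_gt_of_ne (hκ.ne hne) with h | h
  · exact absurd hab (rk_lt h).ne
  · exact absurd hab (rk_lt h).ne'

theorem lt_of_rk {κ : α → β} (hκ : Function.Injective κ) {a b : α} (h : rk κ a < rk κ b) :
    κ a < κ b := by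
  rcases lt_trichotomy (κ a) (κ b) with h1 | h1 | h1
  · exact h1
  · rw [hκ h1] at h
    exact absurd h (lt_irrefl _)
  · exact absurd (rk_lt h1) (not_lt.2 h.le)

theorem rk_lt_card (κ : α → β) (a : α) : rk κ a < Fintype.card α := by
  unfold rk
  rw [← card_univ]
  apply card_lt_card
  rw [ssubset_iff_of_subset (filter_subset _ _)]
  exact ⟨a, mem_univ _, by simp⟩

theorem card_rk {κ : α → β} (hκ : Function.Injective κ) {k : ℕ} (hk : k ≤ Fintype.card α) :
    (univ.filter fun a => rk κ a < k).card = k := by
  have himg : univ.image (rk κ) = range (Fintype.card α) := by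
    apply eq_of_subset_of_card_le
    · intro x hx
      obtain ⟨a, -, rfl⟩ := mem_image.1 hx
      exact mem_range.2 (rk_lt_card κ a)
    · rw [card_range, card_image_of_injective _ (rk_inj hκ), card_univ]
  have h1 : ((univ.image (rk κ)).filter (· < k)).card = (univ.filter fun a => rk κ a < k).card := by
    rw [filter_image, card_image_of_injective _ (rk_inj hκ)]
  rw [← h1, himg]
  have h2 : (range (Fintype.card α)).filter (· < k) = range k := by
    ext x
    simp only [mem_filter, mem_range]
    omega
  rw [h2, card_range]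

theorem mem_lowHalf {κ : α → β} {a : α} : a ∈ lowHalf κ ↔ 2 * rk κ a < Fintype.card α := by
  unfold lowHalf
  simp

theorem lt_of_mem {κ : α → β} (hκ : Function.Injective κ) {a b : α} (ha : a ∈ lowHalf κ)
    (hb : b ∉ lowHalf κ) : κ a < κ b := by
  rw [mem_lowHalf] at ha hb
  exact lt_of_rk hκ (by omega)

theorem hseq_of_keys (N : ℕ) (κ : ℕ → α → β) (lt0 : α → α → Prop) (θ : α → α → ℕ)
    (htot : ∀ a b, a ≠ b → lt0 a b ∨ lt0 b a)
    (h1 : ∀ a b, lt0 a b → ∀ t ≤ N, t ≤ θ a b → κ t a < κ t b)
    (h2 : ∀ a b, lt0 a b → ∀ t ≤ N, θ a b < t → κ t b < κ t a)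
    (h3 : ∀ a b, lt0 a b → θ a b < N)
    (huniq : ∀ a b b' t, (lt0 a b ∧ θ a b = t ∨ lt0 b a ∧ θ b a = t) →
      (lt0 a b' ∧ θ a b' = t ∨ lt0 b' a ∧ θ b' a = t) → b = b')
    (heven : Even (Fintype.card α)) : HSeq N (fun t => lowHalf (κ t)) := by
  have hinj : ∀ t ≤ N, Function.Injective (κ t) := by
    intro t ht a b hab
    by_contra hne
    rcases htot a b hne with h | h
    · rcases le_or_gt t (θ a b) with h' | h'
      · exact absurd hab (h1 a b h t ht h').ne
      · exact absurd hab (h2 a b h t ht h').ne'
    · rcases le_or_gt t (θ b a) with h' | h'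
      · exact absurd hab (h1 b a h t ht h').ne'
      · exact absurd hab (h2 b a h t ht h').ne
  -- the order of a pair changes at a step
  have hchg : ∀ t < N, ∀ a b, (κ t a < κ t b ∧ κ (t + 1) b < κ (t + 1) a) ∨
      (κ t b < κ t a ∧ κ (t + 1) a < κ (t + 1) b) →
      (lt0 a b ∧ θ a b = t ∨ lt0 b a ∧ θ b a = t) := by
    intro t ht a b h
    have hne : a ≠ b := by
      rintro rfl
      rcases h with h | h
      · exact absurd h.1 (lt_irrefl _)
      · exact absurd h.1 (lt_irrefl _)
    rcases htot a b hne with h0 | h0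
    · left
      refine ⟨h0, ?_⟩
      by_contra hθ
      rcases lt_or_gt_of_ne hθ with h' | h'
      · have e1 := h2 a b h0 t ht.le h'
        have e2 := h2 a b h0 (t + 1) ht (by omega)
        rcases h with h | h
        · exact absurd h.1 e1.asymm
        · exact absurd h.2 e2.asymm
      · have e1 := h1 a b h0 t ht.le (by omega)
        have e2 := h1 a b h0 (t + 1) ht (by omega)
        rcases h with h | h
        · exact absurd h.2 e2.asymm
        · exact absurd h.1 e1.asymm
    · right
      refine ⟨h0, ?_⟩
      by_contra hθ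
      rcases lt_or_gt_of_ne hθ with h' | h'
      · have e1 := h2 b a h0 t ht.le h'
        have e2 := h2 b a h0 (t + 1) ht (by omega)
        rcases h with h | h
        · exact absurd h.2 e2.asymm
        · exact absurd h.1 e1.asymm
      · have e1 := h1 b a h0 t ht.le (by omega)
        have e2 := h1 b a h0 (t + 1) ht (by omega)
        rcases h with h | h
        · exact absurd h.1 e1.asymm
        · exact absurd h.2 e2.asymm
  classical
  have hX : ∀ a t, (univ.filter fun b => lt0 a b ∧ θ a b = t ∨ lt0 b a ∧ θ b a = t).card ≤ 1 := by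
    intro a t
    rw [card_le_one]
    intro b hb b' hb'
    simp only [mem_filter, mem_univ, true_and] at hb hb'
    exact huniq a b b' t hb hb'
  have hup : ∀ t < N, ∀ a, rk (κ (t + 1)) a ≤ rk (κ t) a + 1 := by
    intro t ht a
    have hs : (univ.filter fun b => κ (t + 1) b < κ (t + 1) a) ⊆
        (univ.filter fun b => κ t b < κ t a) ∪
          (univ.filter fun b => lt0 a b ∧ θ a b = t ∨ lt0 b a ∧ θ b a = t) := by
      intro b hb
      simp only [mem_filter, mem_univ, true_and, mem_union] at hb ⊢
      by_cases h : κ t b < κ t a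
      · exact Or.inl h
      · right
        have hne : b ≠ a := by
          rintro rfl
          exact absurd hb (lt_irrefl _)
        have h' : κ t a < κ t b := lt_of_le_of_ne (not_lt.1 h) ((hinj t ht.le).ne hne.symm)
        exact hchg t ht a b (Or.inl ⟨h', hb⟩)
    have := (card_le_card hs).trans (card_union_le _ _)
    have h2 := hX a t
    unfold rk
    omega
  have hdn : ∀ t < N, ∀ a, rk (κ t) a ≤ rk (κ (t + 1)) a + 1 := by
    intro t ht a
    have hs : (univ.filter fun b => κ t b < κ t a) ⊆
        (univ.filter fun b => κ (t + 1) b < κ (t + 1) a) ∪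
          (univ.filter fun b => lt0 a b ∧ θ a b = t ∨ lt0 b a ∧ θ b a = t) := by
      intro b hb
      simp only [mem_filter, mem_univ, true_and, mem_union] at hb ⊢
      by_cases h : κ (t + 1) b < κ (t + 1) a
      · exact Or.inl h
      · right
        have hne : b ≠ a := by
          rintro rfl
          exact absurd hb (lt_irrefl _)
        have h' : κ (t + 1) a < κ (t + 1) b :=
          lt_of_le_of_ne (not_lt.1 h) ((hinj (t + 1) ht).ne hne.symm)
        exact hchg t ht a b (Or.inr ⟨hb, h'⟩)
    have := (card_le_card hs).trans (card_union_le _ _)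
    have h2 := hX a t
    unfold rk
    omega
  obtain ⟨m, hm⟩ := heven
  refine ⟨?_, ?_, ?_, ?_⟩
  · intro t ht
    have e1 : lowHalf (κ t) = univ.filter fun a => rk (κ t) a < m := by
      ext a
      rw [mem_lowHalf, mem_filter]
      simp only [mem_univ, true_and]
      omega
    show 2 * (lowHalf (κ t)).card = _
    rw [e1, card_rk (hinj t ht) (by omega)]
    omega
  · intro t ht
    have e1 : (lowHalf (κ t) \ lowHalf (κ (t + 1))).card ≤ 1 := by
      rw [card_le_one]
      intro a ha b hb
      rw [mem_sdiff, mem_lowHalf, mem_lowHalf] at ha hb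
      have e1 := hup t ht a
      have e2 := hup t ht b
      exact rk_inj (hinj t ht.le) (by omega)
    have e2 : (lowHalf (κ (t + 1)) \ lowHalf (κ t)).card ≤ 1 := by
      rw [card_le_one]
      intro a ha b hb
      rw [mem_sdiff, mem_lowHalf, mem_lowHalf] at ha hb
      have e1 := hdn t ht a
      have e2 := hdn t ht b
      exact rk_inj (hinj (t + 1) ht) (by omega)
    show (symmDiff (lowHalf (κ t)) (lowHalf (κ (t + 1)))).card ≤ 2
    have e3 : symmDiff (lowHalf (κ t)) (lowHalf (κ (t + 1))) =
        (lowHalf (κ t) \ lowHalf (κ (t + 1))) ∪ (lowHalf (κ (t + 1)) \ lowHalf (κ t)) := rfl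
    rw [e3]
    have e4 := card_union_le (lowHalf (κ t) \ lowHalf (κ (t + 1)))
      (lowHalf (κ (t + 1)) \ lowHalf (κ t))
    omega
  · ext a
    rw [mem_compl, mem_lowHalf, mem_lowHalf]
    have e1 : (univ.filter fun b => κ N b < κ N a) = univ.filter fun b => κ 0 a < κ 0 b := by
      ext b
      simp only [mem_filter, mem_univ, true_and]
      by_cases hne : a = b
      · subst hne
        simp
      rcases htot a b hne with h0 | h0
      · exact iff_of_true (h2 a b h0 N le_rfl (h3 a b h0)) (h1 a b h0 0 (Nat.zero_le _) (Nat.zero_le _))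
      · exact iff_of_false (h2 b a h0 N le_rfl (h3 b a h0)).asymm
          (h1 b a h0 0 (Nat.zero_le _) (Nat.zero_le _)).asymm
    have e2 : (univ.filter fun b => κ 0 b < κ 0 a).card + (univ.filter fun b => κ 0 a < κ 0 b).card + 1
        = Fintype.card α := by
      have e3 : (univ.filter fun b => ¬ κ 0 b < κ 0 a) = insert a (univ.filter fun b => κ 0 a < κ 0 b) := by
        ext b
        simp only [mem_filter, mem_univ, true_and, mem_insert, not_lt]
        constructor
        · intro h
          rcases h.lt_or_eq with h' | h'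
          · exact Or.inr h'
          · exact Or.inl (hinj 0 (Nat.zero_le _) h').symm
        · rintro (rfl | h)
          · exact le_rfl
          · exact h.le
      have e4 := card_filter_add_card_filter_not (s := (univ : Finset α)) (fun b => κ 0 b < κ 0 a)
      rw [e3, card_insert_of_notMem (by simp), card_univ] at e4
      omega
    have e5 : rk (κ N) a = (univ.filter fun b => κ 0 a < κ 0 b).card := by
      unfold rk
      rw [e1]
    rw [e5]
    unfold rk
    omega
  · intro u v
    by_cases hne : u = v
    · subst hne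
      exact ⟨0, Or.inl ⟨fun t _ _ h => h.1 h.2, fun t _ _ h => h.2 h.1⟩⟩
    rcases htot u v hne with h0 | h0
    · refine ⟨θ u v + 1, Or.inl ⟨fun t ht hts h => ?_, fun t ht hts h => ?_⟩⟩
      · exact absurd (h1 u v h0 t ht (by omega)) (lt_of_mem (hinj t ht) h.2 h.1).asymm
      · exact absurd (h2 u v h0 t ht (by omega)) (lt_of_mem (hinj t ht) h.1 h.2).asymm
    · refine ⟨θ v u + 1, Or.inr ⟨fun t ht hts h => ?_, fun t ht hts h => ?_⟩⟩
      · exact absurd (h1 v u h0 t ht (by omega)) (lt_of_mem (hinj t ht) h.1 h.2).asymm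
      · exact absurd (h2 v u h0 t ht (by omega)) (lt_of_mem (hinj t ht) h.2 h.1).asymm

/-- the lower half is determined by the position of a key -/
theorem lowHalf_cut {κ : α → β} (hcard : 0 < Fintype.card α) :
    ∃ a, ∀ b, (κ b < κ a → b ∈ lowHalf κ) ∧ (κ a < κ b → b ∉ lowHalf κ) := by
  have hne : (lowHalf κ).Nonempty := by
    haveI : Nonempty α := Fintype.card_pos_iff.1 hcard
    obtain ⟨a, ha⟩ := Finite.exists_min κ
    refine ⟨a, mem_lowHalf.2 ?_⟩
    have : rk κ a = 0 := by
      unfold rk
      rw [card_eq_zero, filter_eq_empty_iff]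
      intro b _
      exact not_lt.2 (ha b)
    omega
  obtain ⟨a, ha, hmax⟩ := exists_max_image (lowHalf κ) κ hne
  refine ⟨a, fun b => ⟨fun h => ?_, fun h hb => ?_⟩⟩
  · rw [mem_lowHalf] at ha ⊢
    have := rk_lt h
    omega
  · exact absurd (hmax b hb) (not_le.2 h)

end Pool.Agent.H93.EH
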